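import Mathlib
import Pool.Agent.Q31.GLV.Stm

/-!
# An endomorphism has fewer eigenvalues than the field has elements
-/

set_option autoImplicit false

namespace Pool.Agent.Q222.GLV

open Module Cardinal Submodule
open Pool.Agent.Q31.GLV

theorem t_EIG : S_EIG := by
  intro F V _ _ _ hF hlt f
  by_contra hcon
  push Not at hcon
  have hinf : Infinite F := Cardinal.infinite_iff.mpr hF
  have h1 : ∀ c : ({0}ᶜ : Set F), ∃ v : V, f v = (c : F) • v ∧ v ≠ 0 := fun c => hcon c c.2
  choose v hv hv0 using h1
  have hli : LinearIndependent F v := by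
    refine Module.End.eigenvectors_linearIndependent' f (fun c : ({0}ᶜ : Set F) => (c : F))
      Subtype.val_injective v fun c => ?_
    exact Module.End.hasEigenvector_iff.mpr ⟨Module.End.mem_eigenspace_iff.mpr (hv c), hv0 c⟩
  have h2 := hli.cardinal_le_rank
  have h3 : #({0}ᶜ : Set F) = #F := by
    refine Cardinal.mk_compl_of_infinite _ ?_
    rw [Cardinal.mk_singleton]
    exact lt_of_lt_of_le Cardinal.one_lt_aleph0 hF
  rw [h3] at h2
  exact absurd hlt (not_lt.mpr h2)

end Pool.Agent.Q222.GLV
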