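import Mathlib
import Pool.Agent.Q31.GLV.Stm

/-!
# A commutator with a shift that is one plus a square zero map
-/

set_option autoImplicit false

namespace Pool.Agent.Q222.GLV

open Module Cardinal Submodule
open Pool.Agent.Q31.GLV

theorem t_S2 : S_S2 := by
  classical
  intro F V ι _ _ _ e x hV hι he hx
  -- basic subspaces
  set S : ℤ → Submodule F V := fun n => span F (Set.range fun i : ι => e (i, n)) with hS
  have hmem : ∀ i n, e (i, n) ∈ S n := fun i n => subset_span ⟨i, rfl⟩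
  -- the map ε
  obtain ⟨E, hE⟩ := LinearMap.exists_extend
    ((Basis.span he).constr F (fun p : ι × ℤ => if p.2 = 4 then (⟨e (p.1, 0), hmem p.1 0⟩ : S 0) else 0))
  have hEe : ∀ p : ι × ℤ, E (e p) = if p.2 = 4 then (⟨e (p.1, 0), hmem p.1 0⟩ : S 0) else 0 := by
    intro p
    have h1 : E (e p) = (E ∘ₗ (span F (Set.range e)).subtype) (Basis.span he p) := by
      rw [LinearMap.comp_apply, Submodule.subtype_apply, Basis.span_apply]
    rw [h1, hE, Basis.constr_basis]
  set ε : V →ₗ[F] V := (S 0).subtype ∘ₗ E with hε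
  have hεe : ∀ i n, ε (e (i, n)) = if n = 4 then e (i, 0) else 0 := by
    intro i n
    show ((E (e (i, n)) : S 0) : V) = _
    rw [hEe]
    by_cases hn : n = 4
    · rw [if_pos hn, if_pos hn]
    · rw [if_neg hn, if_neg hn]; rfl
  have hεmem : ∀ v, ε v ∈ S 0 := fun v => (E v).2
  have hε0 : ∀ n, n ≠ 4 → ∀ w ∈ S n, ε w = 0 := by
    intro n hn w hw
    have : S n ≤ LinearMap.ker ε := by
      refine span_le.mpr ?_
      rintro _ ⟨i, rfl⟩
      show ε (e (i, n)) = 0
      rw [hεe, if_neg hn]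
    exact this hw
  have hxS : ∀ n, ∀ w ∈ S n, x w ∈ S (n + 1) := by
    intro n w hw
    have : S n ≤ (S (n + 1)).comap (x : V →ₗ[F] V) := by
      refine span_le.mpr ?_
      rintro _ ⟨i, rfl⟩
      show x (e (i, n)) ∈ S (n + 1)
      rw [hx]
      exact hmem i (n + 1)
    exact this hw
  have hxe : ∀ i n, x⁻¹ (e (i, n)) = e (i, n - 1) := by
    intro i n
    have h := hx i (n - 1)
    rw [sub_add_cancel] at h
    rw [← h]
    exact x.symm_apply_apply _
  have hxS' : ∀ n, ∀ w ∈ S n, x⁻¹ w ∈ S (n - 1) := by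
    intro n w hw
    have : S n ≤ (S (n - 1)).comap ((x⁻¹ : V ≃ₗ[F] V) : V →ₗ[F] V) := by
      refine span_le.mpr ?_
      rintro _ ⟨i, rfl⟩
      show x⁻¹ (e (i, n)) ∈ S (n - 1)
      rw [hxe]
      exact hmem i (n - 1)
    exact this hw
  have hxx : ∀ v, x⁻¹ (x v) = v := fun v => x.symm_apply_apply v
  have hxx' : ∀ v, x (x⁻¹ v) = v := fun v => x.apply_symm_apply v
  have hεε : ∀ v, ε (ε v) = 0 := fun v => hε0 0 (by norm_num) _ (hεmem v)
  have hεxε : ∀ v, ε (x⁻¹ (ε v)) = 0 := fun v => hε0 (0 - 1) (by norm_num) _ (hxS' 0 _ (hεmem v))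
  have hεxε' : ∀ v, ε (x (ε v)) = 0 := fun v => hε0 (0 + 1) (by norm_num) _ (hxS 0 _ (hεmem v))
  -- the unipotent map
  let f : V ≃ₗ[F] V := LinearEquiv.ofLinear (LinearMap.id + ε) (LinearMap.id - ε)
    (by
      ext v
      simp only [LinearMap.comp_apply, LinearMap.add_apply, LinearMap.sub_apply, LinearMap.id_apply,
        map_sub, hεε, sub_zero]
      abel)
    (by
      ext v
      simp only [LinearMap.comp_apply, LinearMap.add_apply, LinearMap.sub_apply, LinearMap.id_apply,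
        map_add, hεε, add_zero]
      abel)
  have hf : ∀ v, f v = v + ε v := fun v => rfl
  have hf' : ∀ v, f⁻¹ v = v - ε v := fun v => rfl
  let δ : V →ₗ[F] V := (x : V →ₗ[F] V) ∘ₗ ε ∘ₗ ((x⁻¹ : V ≃ₗ[F] V) : V →ₗ[F] V) - ε
  have hδ : ∀ v, δ v = x (ε (x⁻¹ v)) - ε v := fun v => rfl
  refine ⟨f, δ, ⟨?_, ?_, ?_⟩, ?_⟩
  · intro v
    rw [hδ v, map_sub, hδ, hδ, hxx, hεε, map_zero, hεxε', hεxε, map_zero, hεε]
    simp
  · refine le_antisymm (Submodule.rank_le _) ?_
    have h1 : S 0 ≤ LinearMap.range δ := by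
      refine span_le.mpr ?_
      rintro _ ⟨i, rfl⟩
      refine ⟨-e (i, 4), ?_⟩
      rw [map_neg, hδ, hxe, hεe, hεe, if_neg (by norm_num), if_pos rfl, map_zero, zero_sub, neg_neg]
    have h2 : LinearIndependent F (fun i : ι => e (i, (0 : ℤ))) :=
      he.comp (fun i : ι => (i, (0 : ℤ))) fun a b h => (Prod.mk.inj h).1
    have h3 : Module.rank F (S 0) = #ι := by
      rw [hS]
      show Module.rank F (span F (Set.range fun i : ι => e (i, (0 : ℤ)))) = #ι
      rw [rank_span h2, Cardinal.mk_range_eq _ h2.injective]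
    rw [← hι, ← h3]
    exact Submodule.rank_mono h1
  · refine ⟨S 2, ?_, ?_, ?_⟩
    · refine span_le.mpr ?_
      rintro _ ⟨i, rfl⟩
      show δ (e (i, 2)) = 0
      rw [hδ, hxe, hεe, hεe, if_neg (by norm_num), if_neg (by norm_num), map_zero, sub_zero]
    · have h1 : S 2 ≤ span F (e '' {p : ι × ℤ | p.2 = 2}) := by
        refine span_le.mpr ?_
        rintro _ ⟨i, rfl⟩
        exact subset_span ⟨(i, 2), rfl, rfl⟩
      have h2 : ∀ n : ℤ, (n = 0 ∨ n = 1) → S n ≤ span F (e '' {p : ι × ℤ | p.2 = 0 ∨ p.2 = 1}) := by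
        intro n hn
        refine span_le.mpr ?_
        rintro _ ⟨i, rfl⟩
        exact subset_span ⟨(i, n), hn, rfl⟩
      have h3 : LinearMap.range δ ≤ span F (e '' {p : ι × ℤ | p.2 = 0 ∨ p.2 = 1}) := by
        rintro _ ⟨v, rfl⟩
        rw [hδ]
        exact Submodule.sub_mem _ (h2 1 (Or.inr rfl) (hxS 0 _ (hεmem _)))
          (h2 0 (Or.inl rfl) (hεmem _))
      refine Disjoint.mono h1 h3 (he.disjoint_span_image ?_)
      rw [Set.disjoint_left]
      rintro p hp (hq | hq)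
      · rw [Set.mem_setOf_eq] at hp; omega
      · rw [Set.mem_setOf_eq] at hp; omega
    · have h2 : LinearIndependent F (fun i : ι => e (i, (2 : ℤ))) :=
        he.comp (fun i : ι => (i, (2 : ℤ))) fun a b h => (Prod.mk.inj h).1
      show Module.rank F (span F (Set.range fun i : ι => e (i, (2 : ℤ)))) = _
      rw [rank_span h2, Cardinal.mk_range_eq _ h2.injective, hι]
  · intro v
    show x (f (x⁻¹ (f⁻¹ v))) = v + δ v
    rw [hf', hf, map_add, hxx', map_sub, map_sub, map_sub, hεxε, map_zero, hδ]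
    abel

end Pool.Agent.Q222.GLV
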